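import Mathlib
import Pool.Agent.R463.One
import Pool.Agent.Y879.GL.Pattern

set_option autoImplicit false

/-!
# The gap laws for almost primes between consecutive odd squares

Sifting by the primes up to a small power of `k`: in the open interval `I k` between the odd squares
`(2 k - 1) ^ 2` and `(2 k + 1) ^ 2`, and in all its parts of length at least `k ^ θ`, the remaining integers
(which include all the primes) have the expected number and follow each other as in a Poisson process.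
(For the Oppermann intervals see `MP_a8fbd7_nt.GapLaws`.)
-/

namespace Pool.Agent.R385.OS.GapLawsOdd

open Finset Filter
open Pool.Agent.R463.PS

/-- `m` has no prime factor `p ≤ X ^ (1 / r)` -/
def Good (X r m : ℕ) : Prop := ∀ p : ℕ, p.Prime → (p : ℝ) ≤ (X : ℝ) ^ (1 / (r : ℝ)) → ¬ p ∣ m

/-- the density: the product of `1 - 1 / p` over the primes `p ≤ X ^ (1 / r)` -/
noncomputable def V (X r : ℕ) : ℝ :=
  ∏ p ∈ (Icc 1 ⌊(X : ℝ) ^ (1 / (r : ℝ))⌋₊).filter Nat.Prime, (1 - 1 / (p : ℝ))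

lemma good_iff (X r m : ℕ) : Good X r m ↔ Sifted idf X r m := (idf_sift X r m).symm

lemma V_eq (X r : ℕ) : V X r = V1 X r := rfl

/-- the primes `p > X` are good -/
lemma good_prime {X r p : ℕ} (hX : 1 ≤ X) (hr : 1 ≤ r) (hp : p.Prime) (hXp : X < p) : Good X r p := by
  intro q hq hqX hd
  have h1 : q = p := (Nat.prime_dvd_prime_iff_eq hq hp).1 hd
  have hX1 : (1 : ℝ) ≤ X := by exact_mod_cast hX
  have hr1 : (1 : ℝ) ≤ r := by exact_mod_cast hr
  have h2 : (X : ℝ) ^ (1 / (r : ℝ)) ≤ X := by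
    calc (X : ℝ) ^ (1 / (r : ℝ)) ≤ (X : ℝ) ^ (1 : ℝ) :=
          Real.rpow_le_rpow_of_exponent_le hX1 (by rw [div_le_one (by linarith)]; exact hr1)
      _ = X := Real.rpow_one _
  have h3 : (q : ℝ) ≤ X := hqX.trans h2
  have h4 : q ≤ X := by exact_mod_cast h3
  omega

/-- good integers up to `X ^ 3` have at most `3 r` prime factors -/
lemma good_few {X r m : ℕ} (hX : 2 ≤ X) (hr : 1 ≤ r) (hm : m ≠ 0) (hmX : m ≤ X ^ 3) (h : Good X r m) :
    m.primeFactorsList.length ≤ 3 * r := by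
  have hX1 : (1 : ℝ) < X := by exact_mod_cast (by omega : 1 < X)
  have hr1 : (0 : ℝ) < r := by exact_mod_cast (by omega : 0 < r)
  refine Pool.Agent.Y879.GL.few_of_rough ((X : ℝ) ^ (1 / (r : ℝ))) (Real.one_lt_rpow hX1 (by positivity)) m
    (3 * r) hm ?_ (fun q hq hqm => ?_)
  · rw [← Real.rpow_natCast, ← Real.rpow_mul (by positivity)]
    have e : 1 / (r : ℝ) * ((3 * r : ℕ) : ℝ) = ((3 : ℕ) : ℝ) := by
      push_cast
      field_simp
    rw [e, Real.rpow_natCast]
    exact_mod_cast hmX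
  · by_contra hcon
    push Not at hcon
    exact h q hq hcon hqm

open Classical in
/-- the number of the good `m` in `(Z, Z + Y]` for which fewer than `l` of the integers in `[m - T, m)`
are good -/
noncomputable def Far (X r l T Z Y : ℕ) : ℕ :=
  ((Ioc Z (Z + Y)).filter (fun m => Good X r m ∧
    ((Ico (m - T) m).filter (fun n => Good X r n)).card < l)).card

lemma Far_eq (X r l T Z Y : ℕ) : Far X r l T Z Y = Pool.Agent.R463.PS.Far idf X r l T Z Y := by
  classical
  unfold Far Pool.Agent.R463.PS.Far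
  congr 1
  apply filter_congr
  intro m _
  rw [good_iff]
  have : (Ico (m - T) m).filter (fun n => Good X r n) = (Ico (m - T) m).filter (fun n => Sifted idf X r n) :=
    filter_congr fun n _ => good_iff X r n
  rw [this]

/-- the open interval between two consecutive odd squares -/
def I (k : ℕ) : Finset ℕ := Ioo ((2 * k - 1) ^ 2) ((2 * k + 1) ^ 2)

lemma I_eq {k : ℕ} (hk : 1 ≤ k) : I k = Ioc ((2 * k - 1) ^ 2) ((2 * k - 1) ^ 2 + (8 * k - 1)) := by
  obtain ⟨m, rfl⟩ : ∃ m, k = m + 1 := ⟨k - 1, by omega⟩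
  unfold I
  ext x
  rw [mem_Ioo, mem_Ioc]
  have e : 2 * (m + 1) - 1 = 2 * m + 1 := by omega
  rw [e]
  have : (2 * m + 1) ^ 2 + 8 * (m + 1) = (2 * (m + 1) + 1) ^ 2 := by ring
  omega

lemma card_I {k : ℕ} (hk : 1 ≤ k) : (I k).card = 8 * k - 1 := by
  rw [I_eq hk, Nat.card_Ioc]
  omega

open Classical in
/-- **The gap laws between consecutive odd squares.** Let `0 < θ ≤ 1`, `ε > 0`, `l₀`, `x₀`. There is `r₀`
such that for all `r ≥ r₀` and all large `k`:
(1) every prime `p > k` is good, and every good `m ≤ (2 k + 1) ^ 2` (`m > 0`) has at most `3 r` prime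
factors;
(2) the number of the good integers in `I k` is `(8 k - 1) V`, up to `ε (8 k - 1) V` (`8 k - 1` is the number
of the integers in `I k`);
(3) in every interval `(Z, Z + Y]` with `Y ≥ k ^ θ`, for instance in all the parts of that length of `I k`,
the number `Far` of the good `m` with fewer than `l` good integers in `[m - T, m)` is the value
`Y V ∑_{j < l} exp (- T V) (T V) ^ j / j!` for the Poisson process of density `V`, up to `ε Y V`, for all
`l ≤ l₀` and all `T`, and for all `l` and all `T ≤ x₀ / V`. -/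
theorem result (θ : ℝ) (hθ : 0 < θ) (hθ1 : θ ≤ 1) (l₀ : ℕ) (x₀ ε : ℝ) (hε : 0 < ε) :
    ∃ r₀ : ℕ, ∀ r : ℕ, r₀ ≤ r → ∀ᶠ k : ℕ in atTop,
      ((∀ p : ℕ, p.Prime → k < p → Good k r p) ∧
        ∀ m : ℕ, m ≠ 0 → m ≤ (2 * k + 1) ^ 2 → Good k r m → m.primeFactorsList.length ≤ 3 * r) ∧
      |((((I k).filter (fun m => Good k r m)).card : ℕ) : ℝ) - (I k).card * V k r| ≤
        ε * ((I k).card * V k r) ∧
      ∀ Z Y : ℕ, (k : ℝ) ^ θ ≤ Y → ∀ l T : ℕ, (l ≤ l₀ ∨ T * V k r ≤ x₀) →
        |(Far k r l T Z Y : ℝ) - Y * V k r *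
          ∑ j ∈ range l, Real.exp (-(T * V k r)) * (T * V k r) ^ j / j.factorial| ≤
          ε * (Y * V k r) := by
  classical
  obtain ⟨r₀, hr₀, h⟩ := one_gaps θ hθ (max l₀ 1) x₀ ε hε
  refine ⟨r₀, fun r hr => ?_⟩
  filter_upwards [h r hr, eventually_ge_atTop 6] with n h1 h2
  have hn1 : (1 : ℝ) ≤ n := by exact_mod_cast (by omega : 1 ≤ n)
  refine ⟨⟨fun p hp hnp => good_prime (by omega) (by omega) hp hnp, fun m hm hmn hg =>
    good_few (by omega) (by omega) hm (hmn.trans ?_) hg⟩, ?_, ?_⟩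
  · have h3 : 6 * n ^ 2 ≤ n ^ 3 := by
      calc 6 * n ^ 2 ≤ n * n ^ 2 := Nat.mul_le_mul_right _ h2
        _ = n ^ 3 := by ring
    nlinarith [Nat.mul_le_mul_right n h2]
  · have h3 := h1 ((2 * n - 1) ^ 2) (8 * n - 1) (by
      have h4 : (n : ℝ) ≤ ((8 * n - 1 : ℕ) : ℝ) := by exact_mod_cast (by omega : n ≤ 8 * n - 1)
      calc (n : ℝ) ^ θ ≤ (n : ℝ) ^ (1 : ℝ) := Real.rpow_le_rpow_of_exponent_le hn1 hθ1
        _ = n := Real.rpow_one _
        _ ≤ _ := h4) 1 0 (Or.inl (le_max_right _ _))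
    rw [← V_eq, ← Far_eq] at h3
    have e1 : Far n r 1 0 ((2 * n - 1) ^ 2) (8 * n - 1) = ((I n).filter (fun m => Good n r m)).card := by
      rw [I_eq (by omega)]
      unfold Far
      congr 1
      apply filter_congr
      intro m _
      simp
    rw [e1] at h3
    rw [card_I (by omega)]
    simpa using h3
  · intro Z Y hY l T hT
    have h3 := h1 Z Y hY l T (hT.imp (fun h => h.trans (le_max_left _ _)) (fun h => h))
    rwa [← V_eq, ← Far_eq] at h3

end Pool.Agent.R385.OS.GapLawsOdd
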