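import Mathlib
import Pool.Agent.R463.One
import Pool.Agent.Y879.GL.Pattern

set_option autoImplicit false

/-!
# Regular points of arbitrary sets of primes or almost primes between consecutive odd squares

In the open interval between two consecutive odd squares almost all elements of EVERY set of primes, or of integers without prime
factor up to a small power of `k`, see the set in all windows around them with the right order of magnitude,
and at all scales with few exceptions with a constant density on both sides.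
-/

namespace Pool.Agent.R385.OS.RegularPointsOdd

open Finset Filter
open Pool.Agent.R463.PS

/-- `m` has no prime factor `p ≤ X ^ (1 / r)` -/
def Good (X r m : ℕ) : Prop := ∀ p : ℕ, p.Prime → (p : ℝ) ≤ (X : ℝ) ^ (1 / (r : ℝ)) → ¬ p ∣ m

/-- the density: the product of `1 - 1 / p` over the primes `p ≤ X ^ (1 / r)` -/
noncomputable def V (X r : ℕ) : ℝ :=
  ∏ p ∈ (Icc 1 ⌊(X : ℝ) ^ (1 / (r : ℝ))⌋₊).filter Nat.Prime, (1 - 1 / (p : ℝ))

lemma good_iff (X r m : ℕ) : Good X r m ↔ Sifted idf X r m := (idf_sift X r m).symm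

lemma V_eq (X r : ℕ) : V X r = V1 X r := rfl

/-- the primes `p > X` are good -/
lemma good_prime {X r p : ℕ} (hX : 1 ≤ X) (hr : 1 ≤ r) (hp : p.Prime) (hXp : X < p) : Good X r p := by
  intro q hq hqX hd
  have h1 : q = p := (Nat.prime_dvd_prime_iff_eq hq hp).1 hd
  have hX1 : (1 : ℝ) ≤ X := by exact_mod_cast hX
  have hr1 : (1 : ℝ) ≤ r := by exact_mod_cast hr
  have h2 : (X : ℝ) ^ (1 / (r : ℝ)) ≤ X := by
    calc (X : ℝ) ^ (1 / (r : ℝ)) ≤ (X : ℝ) ^ (1 : ℝ) :=
          Real.rpow_le_rpow_of_exponent_le hX1 (by rw [div_le_one (by linarith)]; exact hr1)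
      _ = X := Real.rpow_one _
  have h3 : (q : ℝ) ≤ X := hqX.trans h2
  have h4 : q ≤ X := by exact_mod_cast h3
  omega

/-- good integers up to `X ^ 3` have at most `3 r` prime factors -/
lemma good_few {X r m : ℕ} (hX : 2 ≤ X) (hr : 1 ≤ r) (hm : m ≠ 0) (hmX : m ≤ X ^ 3) (h : Good X r m) :
    m.primeFactorsList.length ≤ 3 * r := by
  have hX1 : (1 : ℝ) < X := by exact_mod_cast (by omega : 1 < X)
  have hr1 : (0 : ℝ) < r := by exact_mod_cast (by omega : 0 < r)
  refine Pool.Agent.Y879.GL.few_of_rough ((X : ℝ) ^ (1 / (r : ℝ))) (Real.one_lt_rpow hX1 (by positivity)) m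
    (3 * r) hm ?_ (fun q hq hqm => ?_)
  · rw [← Real.rpow_natCast, ← Real.rpow_mul (by positivity)]
    have e : 1 / (r : ℝ) * ((3 * r : ℕ) : ℝ) = ((3 : ℕ) : ℝ) := by
      push_cast
      field_simp
    rw [e, Real.rpow_natCast]
    exact_mod_cast hmX
  · by_contra hcon
    push Not at hcon
    exact h q hq hcon hqm

/-- the open interval between two consecutive odd squares -/
def I (k : ℕ) : Finset ℕ := Ioo ((2 * k - 1) ^ 2) ((2 * k + 1) ^ 2)

lemma I_eq {k : ℕ} (hk : 1 ≤ k) : I k = Ioc ((2 * k - 1) ^ 2) ((2 * k - 1) ^ 2 + (8 * k - 1)) := by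
  obtain ⟨m, rfl⟩ : ∃ m, k = m + 1 := ⟨k - 1, by omega⟩
  unfold I
  ext x
  rw [mem_Ioo, mem_Ioc]
  have e : 2 * (m + 1) - 1 = 2 * m + 1 := by omega
  rw [e]
  have : (2 * m + 1) ^ 2 + 8 * (m + 1) = (2 * (m + 1) + 1) ^ 2 := by ring
  omega

open Classical in
/-- **Regular points of arbitrary sets between consecutive odd squares.**

`Regular S V c δ B Y m`: every interval `(m - s, m + t]`, `s, t ≤ Y`, with `c (s + t) V ≥ 1` contains
between `c (s + t) V` and `(s + t) V / c` elements of `S`, and for all scales `1 / V ≤ 2 ^ j ≤ Y` with at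
most `B` exceptions there is a density `c ≤ lam ≤ 1 / c` such that all intervals `(m - s, m + t]`,
`s, t ≤ 2 ^ j`, contain `lam (s + t) V` elements of `S`, up to `δ 2 ^ j V`.

There is `r₀` such that for all `r ≥ r₀` and `ε > 0` there is `c > 0`, and for all `δ > 0` there is `B`, such
that for all large `k`, with `X = 8 k`: (1) every prime `p > X` is good, and every good `m ≤ (2 k + 1) ^ 2`
(`m > 0`) has at most `3 r` prime factors; (2) for EVERY set `S` of good integers: at most `ε k V` elements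
of `S` in the open interval `I k` between `(2 k - 1) ^ 2` and `(2 k + 1) ^ 2` are not regular points of `S`,
with `Y = 8 k - 1`, the number of the integers in `I k`. -/
theorem result : ∃ r₀ : ℕ, 2 ≤ r₀ ∧ ∀ r : ℕ, r₀ ≤ r → ∀ ε : ℝ, 0 < ε → ∃ c : ℝ, 0 < c ∧ ∀ δ : ℝ, 0 < δ →
    ∃ B : ℕ, ∀ᶠ k : ℕ in atTop,
      ((∀ p : ℕ, p.Prime → 8 * k < p → Good (8 * k) r p) ∧
        ∀ m : ℕ, m ≠ 0 → m ≤ (2 * k + 1) ^ 2 → Good (8 * k) r m → m.primeFactorsList.length ≤ 3 * r) ∧
      ∀ S : Set ℕ, (∀ m ∈ S, Good (8 * k) r m) →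
        (((I k).filter (fun m => m ∈ S ∧ ¬ Regular S (V (8 * k) r) c δ B (8 * k - 1) m)).card : ℝ) ≤
          ε * (k * V (8 * k) r) := by
  obtain ⟨r₀, hr₀, h⟩ := one_regular (1 / 2) (by norm_num)
  refine ⟨r₀, hr₀, fun r hr ε hε => ?_⟩
  obtain ⟨c, hc, h1⟩ := h r hr (ε / 8) (by positivity)
  refine ⟨c, hc, fun δ hδ => ?_⟩
  obtain ⟨B, h2⟩ := h1 δ hδ
  refine ⟨B, ?_⟩
  have h8 : Tendsto (fun k : ℕ => 8 * k) atTop atTop :=
    tendsto_atTop_mono (fun k => by show k ≤ 8 * k; omega) tendsto_id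
  filter_upwards [h8.eventually h2, eventually_ge_atTop 6] with n h1 h2
  refine ⟨⟨fun p hp hnp => good_prime (by omega) (by omega) hp hnp, fun m hm hmn hg =>
    good_few (by omega) (by omega) hm (hmn.trans ?_) hg⟩, ?_⟩
  · have h3 : (2 * n + 1) ^ 2 ≤ (3 * n) ^ 2 := Nat.pow_le_pow_left (by omega) 2
    have h4 : (3 * n) ^ 2 ≤ (8 * n) ^ 2 := Nat.pow_le_pow_left (by omega) 2
    have h5 : (8 * n) ^ 2 ≤ (8 * n) ^ 3 := Nat.pow_le_pow_right (by omega) (by omega)
    omega
  · intro S hS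
    have hY : (((8 * n : ℕ) : ℝ)) ^ ((1 : ℝ) / 2) ≤ ((8 * n - 1 : ℕ) : ℝ) := by
      rw [← Real.sqrt_eq_rpow, Real.sqrt_le_left (by positivity)]
      have : 8 * n ≤ (8 * n - 1) ^ 2 := by
        obtain ⟨m, hm⟩ : ∃ m, 8 * n = m + 2 := ⟨8 * n - 2, by omega⟩
        rw [hm, show m + 2 - 1 = m + 1 by omega]
        nlinarith
      exact_mod_cast this
    have hu : 8 * n - 1 ≤ (2 * n - 1) ^ 2 := by
      obtain ⟨m, rfl⟩ : ∃ m, n = m + 1 := ⟨n - 1, by omega⟩
      rw [show 2 * (m + 1) - 1 = 2 * m + 1 by omega]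
      have : 8 * (m + 1) ≤ (2 * m + 1) ^ 2 := by nlinarith
      omega
    have h4 := h1 ((2 * n - 1) ^ 2) (8 * n - 1) hY (by omega) hu S (fun m hm => (good_iff (8 * n) r m).1 (hS m hm))
    rw [← V_eq, ← I_eq (by omega)] at h4
    refine h4.trans ?_
    have hV : 0 ≤ V (8 * n) r := by
      unfold V
      refine prod_nonneg fun p hp => ?_
      have h5 : (1 : ℝ) < p := by exact_mod_cast (mem_filter.1 hp).2.one_lt
      have h6 : 1 / (p : ℝ) ≤ 1 := by
        rw [div_le_one (by linarith)]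
        exact h5.le
      linarith
    have h7 : ((8 * n - 1 : ℕ) : ℝ) ≤ 8 * n := by exact_mod_cast (by omega : 8 * n - 1 ≤ 8 * n)
    calc ε / 8 * (((8 * n - 1 : ℕ) : ℝ) * V (8 * n) r) ≤ ε / 8 * (8 * n * V (8 * n) r) := by
          apply mul_le_mul_of_nonneg_left _ (by positivity)
          exact mul_le_mul_of_nonneg_right h7 hV
      _ = ε * (n * V (8 * n) r) := by ring

end Pool.Agent.R385.OS.RegularPointsOdd
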